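import Mathlib
import Pool.Agent.H934.Defs
import Pool.Agent.H934.K.Defs
import Pool.Agent.H934.K.Twist
import Pool.Agent.H934.K.Biell

set_option autoImplicit false

open CategoryTheory CategoryTheory.Limits CategoryTheory.Pretriangulated

namespace Pool.Agent.Results.MP_feab0e_ag.BiellipticConnected

universe w₃ w₂ w₁ w v u

open Pool.Agent.H934 Pool.Agent.H934.K

/-- **The space of stability conditions of a bielliptic surface is connected.** Let `D` be the data
attached to a bielliptic surface `S` (`T = D^b(S)`, the group `G = Pic⁰(S) × Aut⁰(S)` acting on it,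
the skyscraper sheaves, and the structure sheaves of the fibres of the Albanese morphism, with the
elementary facts on them listed in `BiellipticData`). Assume that all stability conditions are
invariant under the action of `G` (a theorem of Polishchuk) and that the set of geometric
stability conditions is connected for the topology of the space of stability conditions (recorded
in the problem). Then all stability conditions on `S` are geometric, and `Stab(S)` is connected. -/
theorem result {𝕜 : Type w} [Field 𝕜] {T : Type u} [Category.{v} T] [Preadditive T]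
    [HasZeroObject T] [HasShift T ℤ] [∀ n : ℤ, (shiftFunctor T n).Additive] [Pretriangulated T]
    [IsTriangulated T] [Linear 𝕜 T] [∀ n : ℤ, (shiftFunctor T n).Linear 𝕜]
    (𝒮 : K.SerreFunctor 𝕜 T) (G : Type w₁) [Group G] (X : Type w₂) [MulAction G X]
    (B : Type w₃) (D : BiellipticData 𝒮 G X B)
    (hG : ∀ (σ : K.StabCond 𝕜 T) (g : G) (φ : ℝ) (E : T),
      σ.P φ E ↔ σ.P φ ((D.α.Φ g).functor.obj E))
    [TopologicalSpace (K.StabCond 𝕜 T)]
    (hgeo : IsConnected {σ : K.StabCond 𝕜 T | GeometricFor D.O σ.toSlicing}) :
    (∀ σ : K.StabCond 𝕜 T, GeometricFor D.O σ.toSlicing) ∧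
      ConnectedSpace (K.StabCond 𝕜 T) := by
  have h : ∀ σ : K.StabCond 𝕜 T, GeometricFor D.O σ.toSlicing :=
    fun σ => geometric_of_invariant D σ (hG σ)
  refine ⟨h, ?_⟩
  have h1 : {σ : K.StabCond 𝕜 T | GeometricFor D.O σ.toSlicing} = Set.univ :=
    Set.eq_univ_of_forall h
  rw [h1] at hgeo
  exact connectedSpace_iff_univ.2 hgeo

end Pool.Agent.Results.MP_feab0e_ag.BiellipticConnected
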